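import Pool.Agent.H70.Betti.Limit

set_option autoImplicit false

/-!
# The frontier property fails for `T = (1, 3^k, 1)`, `k ≥ 3`

For every algebraically closed field `K` and every `k ≥ 3`, the Betti strata of the family `G_T` of
graded quotients of `K[x, y, z]` with Hilbert function `T = (1, 3^k, 1)` do not satisfy the
frontier property: some Betti stratum has a Zariski closure which is not a union of Betti strata.

The algebras `A(t, e)` (`t, e ∈ K`) have the same `I_n`, `2 ≤ n ≤ k`, as the three points
`(0,1,0)`, `(0,0,1)`, `(t,1,1)`, and `I_{k+1}` is the kernel of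
`f ↦ f(0,1,0) + f(0,0,1) + e f(t,1,1)`. The algebras `A(0, 0)` and `A(0, 1)` have the same Betti
table, `A(0, 0)` is a limit of the algebras `A(t, 0)`, `t ≠ 0`, but `A(0, 1)` is not in the closure
of the Betti stratum of `A(t, 0)`, on which the pairing `A_2 × A_{k-1} → A_{k+1}` is degenerate.
-/

open Pool.Agent.H70.Betti

universe u

theorem Pool.Agent.Results.MP_b99c49_ag.FrontierFails.result (K : Type u) [Field K]
    [IsAlgClosed K] (k : ℕ) (hk : 3 ≤ k) : ¬ FrontierProperty K k :=
  not_frontier hk
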